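import Pool.Agent.W709.VC.Defs

/-!
# VC-CRIT: existence of the critical point
-/

set_option autoImplicit false
set_option maxHeartbeats 4000000

namespace Pool.Agent.W704.VC.Crit

open Real Set Filter Topology
open Pool.Agent.W709.VC

/-- `cosh η - cos b` -/
noncomputable def D (b η : ℝ) : ℝ := cosh η - cos b

/-- hyperbolic tangent -/
noncomputable def th (x : ℝ) : ℝ := sinh x / cosh x

/-- the right hand side of the first equation -/
noncomputable def G (b η : ℝ) : ℝ := sin b * √(4 - D b η ^ 2) / (2 + |cos b| * D b η)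

/-- the first equation -/
noncomputable def Ph (m b η : ℝ) : ℝ := th (2 * m * η) - G b η

/-- the cosine of the angle `α` -/
noncomputable def cc (b η : ℝ) : ℝ :=
  (2 - cosh η ^ 2 - cos b ^ 2) / (2 * (1 + cosh η * cos b))

/-- antiderivative of `sinh η / (cosh η + cos τ)` -/
noncomputable def T (η τ : ℝ) : ℝ := 2 * arctan (th (η / 2) * (sin (τ / 2) / cos (τ / 2)))

lemma th_strictMono : StrictMono th := by
  intro x y hxy
  unfold th
  rw [div_lt_div_iff₀ (cosh_pos x) (cosh_pos y)]
  have h := sinh_pos_iff.mpr (sub_pos.mpr hxy)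
  rw [sinh_sub] at h
  nlinarith

lemma th_zero : th 0 = 0 := by simp [th]

lemma continuous_th : Continuous th :=
  continuous_sinh.div continuous_cosh fun x => (cosh_pos x).ne'

lemma D_nonneg (b η : ℝ) : 0 ≤ D b η := by
  unfold D
  linarith [one_le_cosh η, cos_le_one b]

lemma den_pos (b η : ℝ) : 0 < 2 + |cos b| * D b η := by
  have := mul_nonneg (abs_nonneg (cos b)) (D_nonneg b η)
  linarith

lemma continuous_G : Continuous fun p : ℝ × ℝ => G p.1 p.2 := by
  have hD : Continuous fun p : ℝ × ℝ => D p.1 p.2 := by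
    unfold D
    exact (continuous_cosh.comp continuous_snd).sub (continuous_cos.comp continuous_fst)
  unfold G
  refine Continuous.div ?_ ?_ fun p => (den_pos p.1 p.2).ne'
  · exact (continuous_sin.comp continuous_fst).mul
      (Real.continuous_sqrt.comp (continuous_const.sub (hD.pow 2)))
  · exact continuous_const.add ((continuous_abs.comp (continuous_cos.comp continuous_fst)).mul hD)

lemma continuous_Ph (m : ℝ) : Continuous fun p : ℝ × ℝ => Ph m p.1 p.2 := by
  unfold Ph
  exact (continuous_th.comp (continuous_const.mul continuous_snd)).sub continuous_G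

lemma G_anti {b η η' : ℝ} (hb : 0 ≤ sin b) (h0 : 0 ≤ η) (h : η ≤ η') : G b η' ≤ G b η := by
  have hc : cosh η ≤ cosh η' := by
    rw [cosh_le_cosh, abs_of_nonneg h0, abs_of_nonneg (h0.trans h)]
    exact h
  have hD : D b η ≤ D b η' := by
    unfold D
    linarith
  have hD0 := D_nonneg b η
  unfold G
  apply div_le_div₀
  · exact mul_nonneg hb (Real.sqrt_nonneg _)
  · apply mul_le_mul_of_nonneg_left _ hb
    apply Real.sqrt_le_sqrt
    have := pow_le_pow_left₀ hD0 hD 2
    linarith
  · exact den_pos b η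
  · have := mul_le_mul_of_nonneg_left hD (abs_nonneg (cos b))
    linarith

lemma Ph_mono {m b η η' : ℝ} (hm : 0 < m) (hb : 0 ≤ sin b) (h0 : 0 ≤ η) (h : η ≤ η') :
    Ph m b η ≤ Ph m b η' := by
  have h1 := G_anti hb h0 h
  have h2 : th (2 * m * η) ≤ th (2 * m * η') := th_strictMono.monotone (by nlinarith)
  unfold Ph
  linarith

lemma Ph_strict {m b η η' : ℝ} (hm : 0 < m) (hb : 0 ≤ sin b) (h0 : 0 ≤ η) (h : η < η') :
    Ph m b η < Ph m b η' := by
  have h1 := G_anti hb h0 h.le
  have h2 : th (2 * m * η) < th (2 * m * η') := th_strictMono (by nlinarith)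
  unfold Ph
  linarith

lemma Ph_zero {m b : ℝ} (hb0 : 0 < b) (hb : b ≤ π / 2) : Ph m b 0 < 0 := by
  have hs : 0 < sin b := sin_pos_of_pos_of_lt_pi hb0 (by linarith [pi_pos])
  have hc : 0 ≤ cos b := cos_nonneg_of_mem_Icc ⟨by linarith [pi_pos], hb⟩
  have hG : 0 < G b 0 := by
    unfold G
    apply div_pos _ (den_pos b 0)
    apply mul_pos hs
    apply Real.sqrt_pos.mpr
    unfold D
    rw [cosh_zero]
    nlinarith [cos_le_one b]
  unfold Ph
  rw [mul_zero, th_zero]
  linarith

/-- the upper bound for `η` -/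
noncomputable def e1 : ℝ := arcosh √2

lemma one_lt_sqrt2 : (1:ℝ) < √2 := by
  rw [Real.lt_sqrt (by norm_num)]
  norm_num

lemma e1_pos : 0 < e1 := arcosh_pos one_lt_sqrt2

lemma cosh_e1 : cosh e1 = √2 := cosh_arcosh one_lt_sqrt2.le

lemma th_e1 : th e1 = 1 / √2 := by
  unfold th e1
  rw [sinh_arcosh one_lt_sqrt2.le, cosh_arcosh one_lt_sqrt2.le, Real.sq_sqrt (by norm_num)]
  norm_num

lemma Ph_e1 {m b : ℝ} (hm : 2 ≤ m) (hb0 : 0 < b) (hb : b ≤ π / 2) : 0 < Ph m b e1 := by
  have hs : 0 < sin b := sin_pos_of_pos_of_lt_pi hb0 (by linarith [pi_pos])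
  have hc : 0 ≤ cos b := cos_nonneg_of_mem_Icc ⟨by linarith [pi_pos], hb⟩
  have hc1 := cos_le_one b
  have h1 : th e1 < th (2 * m * e1) := th_strictMono (by nlinarith [e1_pos])
  have hs2 : √2 ^ 2 = (2:ℝ) := Real.sq_sqrt (by norm_num)
  have hs1 := one_lt_sqrt2
  have hG : G b e1 ≤ 1 / √2 := by
    have hden := den_pos b e1
    unfold G
    rw [div_le_div_iff₀ hden (by positivity), abs_of_nonneg hc]
    unfold D
    rw [cosh_e1]
    set c := cos b with hcdef
    have hsin : sin b ^ 2 = 1 - c ^ 2 := by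
      rw [hcdef, Real.sin_sq]
    have h4 : 0 ≤ 4 - (√2 - c) ^ 2 := by nlinarith
    have hr : 0 ≤ 1 * (2 + c * (√2 - c)) := by nlinarith
    have hl : 0 ≤ sin b * √(4 - (√2 - c) ^ 2) * √2 := by positivity
    apply le_of_sq_le_sq _ hr
    rw [mul_pow, mul_pow, Real.sq_sqrt h4, hs2, hsin]
    have e : (1 * (2 + c * (√2 - c))) ^ 2 - (1 - c ^ 2) * (4 - (√2 - c) ^ 2) * 2 =
        4 * c ^ 2 + 2 * √2 * c ^ 3 - c ^ 4 + (√2 ^ 2 - 2) * (2 - c ^ 2) := by ring
    have : c ^ 4 ≤ c ^ 2 := by nlinarith [mul_nonneg hc hc]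
    have : 0 ≤ √2 * c ^ 3 := by positivity
    rw [hs2] at e
    nlinarith
  rw [th_e1] at h1
  unfold Ph
  linarith

lemma exists_eta {m b : ℝ} (hm : 2 ≤ m) (hb0 : 0 < b) (hb : b ≤ π / 2) :
    ∃ η, 0 < η ∧ η < e1 ∧ Ph m b η = 0 := by
  have hcont : ContinuousOn (fun η => Ph m b η) (Icc 0 e1) :=
    ((continuous_Ph m).comp (Continuous.prodMk_right b)).continuousOn
  have h := intermediate_value_Ioo e1_pos.le hcont
  have hmem : (0:ℝ) ∈ Ioo (Ph m b 0) (Ph m b e1) := ⟨Ph_zero hb0 hb, Ph_e1 hm hb0 hb⟩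
  obtain ⟨η, ⟨h1, h2⟩, h3⟩ := h hmem
  exact ⟨η, h1, h2, h3⟩

lemma cosh_lt_sqrt2 {η : ℝ} (h0 : 0 < η) (h : η < e1) : cosh η < √2 := by
  rw [← cosh_e1, cosh_lt_cosh, abs_of_pos h0, abs_of_pos e1_pos]
  exact h

lemma e_cont {m lo hi : ℝ} (hm : 2 ≤ m) (hlo : 0 < lo) (hhi : hi ≤ π / 2) (e : ℝ → ℝ)
    (he : ∀ b ∈ Icc lo hi, 0 < e b ∧ e b < e1 ∧ Ph m b (e b) = 0) :
    ContinuousOn e (Icc lo hi) := by
  have hsin : ∀ b ∈ Icc lo hi, 0 ≤ sin b := fun b hb =>
    sin_nonneg_of_nonneg_of_le_pi (by linarith [hb.1]) (by linarith [hb.2, pi_pos])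
  intro b₀ hb₀
  have hmem : ∀ᶠ b in 𝓝[Icc lo hi] b₀, b ∈ Icc lo hi := self_mem_nhdsWithin
  have hcb : ∀ a : ℝ, ContinuousWithinAt (fun b => Ph m b a) (Icc lo hi) b₀ := fun a =>
    ((continuous_Ph m).comp (Continuous.prodMk_left a)).continuousWithinAt
  refine tendsto_order.2 ⟨fun a ha => ?_, fun a ha => ?_⟩
  · rcases le_or_gt a 0 with h0 | h0
    · filter_upwards [hmem] with b hb
      exact lt_of_le_of_lt h0 (he b hb).1
    · have h1 : Ph m b₀ a < 0 := by
        rw [← (he b₀ hb₀).2.2]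
        exact Ph_strict (by linarith) (hsin b₀ hb₀) h0.le ha
      have h2 : ∀ᶠ b in 𝓝[Icc lo hi] b₀, Ph m b a < 0 := (hcb a).eventually (gt_mem_nhds h1)
      filter_upwards [hmem, h2] with b hb h3
      by_contra hcon
      have := Ph_mono (m := m) (by linarith) (hsin b hb) (he b hb).1.le (not_lt.mp hcon)
      rw [(he b hb).2.2] at this
      linarith
  · have h0 : 0 < a := (he b₀ hb₀).1.trans ha
    have h1 : 0 < Ph m b₀ a := by
      rw [← (he b₀ hb₀).2.2]
      exact Ph_strict (by linarith) (hsin b₀ hb₀) (he b₀ hb₀).1.le ha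
    have h2 : ∀ᶠ b in 𝓝[Icc lo hi] b₀, 0 < Ph m b a := (hcb a).eventually (lt_mem_nhds h1)
    filter_upwards [hmem, h2] with b hb h3
    by_contra hcon
    have := Ph_mono (m := m) (by linarith) (hsin b hb) h0.le (not_lt.mp hcon)
    rw [(he b hb).2.2] at this
    linarith

/-- the basic facts about the angle -/
lemma angle {b η : ℝ} (hb0 : 0 < b) (hb : b ≤ π / 2) (hη : 0 < η) (hch : cosh η < √2) :
    1 - cc b η = (cosh η + cos b) ^ 2 / (2 * (1 + cosh η * cos b)) ∧
    1 + cc b η = (4 - D b η ^ 2) / (2 * (1 + cosh η * cos b)) ∧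
    -1 < cc b η ∧ cc b η < 1 ∧ -cos b < cc b η := by
  have hc : 0 ≤ cos b := cos_nonneg_of_mem_Icc ⟨by linarith [pi_pos], hb⟩
  have hc1 := cos_le_one b
  have h1 : 1 < cosh η := one_lt_cosh.mpr hη.ne'
  have hs2 : √2 ^ 2 = (2:ℝ) := Real.sq_sqrt (by norm_num)
  have hch2 : cosh η ^ 2 < 2 := by nlinarith [Real.sqrt_nonneg 2]
  have hden : 0 < 2 * (1 + cosh η * cos b) := by nlinarith
  have hD : D b η < 2 := by
    unfold D
    nlinarith
  have hD0 := D_nonneg b η
  have e1 : 1 - cc b η = (cosh η + cos b) ^ 2 / (2 * (1 + cosh η * cos b)) := by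
    unfold cc
    field_simp
    ring
  have e2 : 1 + cc b η = (4 - D b η ^ 2) / (2 * (1 + cosh η * cos b)) := by
    unfold cc D
    field_simp
    ring
  have p1 : 0 < 1 - cc b η := by
    rw [e1]
    positivity
  have p2 : 0 < 1 + cc b η := by
    rw [e2]
    apply div_pos _ hden
    nlinarith
  refine ⟨e1, e2, by linarith, by linarith, ?_⟩
  unfold cc
  rw [lt_div_iff₀ hden]
  nlinarith [mul_nonneg hc hc, mul_nonneg (mul_nonneg hc hc) (by linarith : (0:ℝ) ≤ cosh η)]

/-- the first two equations -/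
lemma crit12 {m b η : ℝ} (hb0 : 0 < b) (hb : b ≤ π / 2) (hη : 0 < η)
    (hch : cosh η < √2) (hPh : Ph m b η = 0) :
    0 < arccos (cc b η) ∧ arccos (cc b η) + b < π ∧
    4 * m * η + ell η (b + arccos (cc b η)) - ell η (b - arccos (cc b η)) = 0 ∧
    ell η (b + arccos (cc b η)) + ell η (b - arccos (cc b η)) =
      4 * Real.log (2 * Real.sin (arccos (cc b η) / 2)) := by
  obtain ⟨a1, a2, a3, a4, a5⟩ := angle hb0 hb hη hch
  have hc : 0 ≤ cos b := cos_nonneg_of_mem_Icc ⟨by linarith [pi_pos], hb⟩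
  have hc1 := cos_le_one b
  have hs : 0 < sin b := sin_pos_of_pos_of_lt_pi hb0 (by linarith [pi_pos])
  have h1 : 1 < cosh η := one_lt_cosh.mpr hη.ne'
  have hden : 0 < 2 * (1 + cosh η * cos b) := by nlinarith
  have hs2 : √2 ^ 2 = (2:ℝ) := Real.sq_sqrt (by norm_num)
  have hch2 : cosh η ^ 2 < 2 := by nlinarith [Real.sqrt_nonneg 2]
  have hD : D b η < 2 := by
    unfold D
    nlinarith
  have hD0 := D_nonneg b η
  set α := arccos (cc b η) with hα
  have hcos : cos α = cc b η := cos_arccos a3.le a4.le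
  have hα0 : 0 < α := arccos_pos.mpr a4
  have hαπ : α ≤ π := arccos_le_pi _
  have hsum : α + b < π := by
    have h2 : cos (π - b) < cos α := by
      rw [cos_pi_sub, hcos]
      exact a5
    by_contra hcon
    have h3 : π - b ≤ α := by linarith
    have := cos_le_cos_of_nonneg_of_le_pi (by linarith [pi_pos]) hαπ h3
    linarith
  have hsinα : sin α = (cosh η + cos b) * √(4 - D b η ^ 2) / (2 * (1 + cosh η * cos b)) := by
    rw [hα, sin_arccos]
    have h4 : 0 ≤ 4 - D b η ^ 2 := by nlinarith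
    have e : 1 - cc b η ^ 2 = ((cosh η + cos b) * √(4 - D b η ^ 2) /
        (2 * (1 + cosh η * cos b))) ^ 2 := by
      have : 1 - cc b η ^ 2 = (1 - cc b η) * (1 + cc b η) := by ring
      rw [this, a1, a2, div_pow, mul_pow, Real.sq_sqrt h4]
      field_simp
    rw [e, Real.sqrt_sq (by positivity)]
  -- positivity of the two factors
  have p1 : 0 < cosh η + cos (b + α) := by linarith [neg_one_le_cos (b + α)]
  have p2 : 0 < cosh η + cos (b - α) := by linarith [neg_one_le_cos (b - α)]
  have hprod : (cosh η + cos (b + α)) * (cosh η + cos (b - α)) = (1 - cos α) ^ 2 := by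
    have e : (cosh η + cos (b + α)) * (cosh η + cos (b - α)) =
        cosh η ^ 2 + 2 * cosh η * cos b * cos α + (cos b ^ 2 * cos α ^ 2 -
          sin b ^ 2 * sin α ^ 2) := by
      rw [cos_add, cos_sub]
      ring
    rw [e, Real.sin_sq, Real.sin_sq, hcos]
    have e3 : cc b η * (2 * (1 + cosh η * cos b)) = 2 - cosh η ^ 2 - cos b ^ 2 := by
      unfold cc
      field_simp
    nlinarith
  have hsq : 2 * sin (α / 2) ^ 2 = 1 - cos α := by
    have := cos_two_mul (α / 2)
    rw [show 2 * (α / 2) = α by ring] at this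
    have h5 := Real.sin_sq_add_cos_sq (α / 2)
    nlinarith
  have hsin2 : 0 < sin (α / 2) := sin_pos_of_pos_of_lt_pi (by linarith) (by linarith)
  refine ⟨hα0, hsum, ?_, ?_⟩
  · -- c1
    have hcosh := cosh_pos (2 * m * η)
    have hG : th (2 * m * η) = G b η := by
      unfold Ph at hPh
      linarith
    have hGe : G b η = sin b * sin α / (cosh η + cos b * cos α) := by
      have hx : cosh η + cos b * cos α = (cosh η + cos b) * (2 + cos b * D b η) /
          (2 * (1 + cosh η * cos b)) := by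
        rw [hcos]
        unfold cc D
        field_simp
        ring
      have hd := den_pos b η
      rw [abs_of_nonneg hc] at hd
      rw [hx, hsinα]
      unfold G
      rw [abs_of_nonneg hc]
      have h6 : 0 < cosh η + cos b := by linarith
      have h7 : 0 < 1 + cosh η * cos b := by nlinarith
      field_simp
    have hden2 : 0 < cosh η + cos b * cos α := by
      have : cosh η + cos b * cos α = ((cosh η + cos (b + α)) + (cosh η + cos (b - α))) / 2 := by
        rw [cos_add, cos_sub]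
        ring
      rw [this]
      positivity
    have hexp : exp (4 * m * η) * (cosh η + cos (b + α)) = cosh η + cos (b - α) := by
      have h8 : sinh (2 * m * η) * (cosh η + cos b * cos α) =
          sin b * sin α * cosh (2 * m * η) := by
        rw [hGe] at hG
        unfold th at hG
        rw [div_eq_div_iff hcosh.ne' hden2.ne'] at hG
        exact hG
      rw [sinh_eq, cosh_eq (2 * m * η)] at h8
      have h9 : exp (4 * m * η) * exp (-(2 * m * η)) = exp (2 * m * η) := by
        rw [← exp_add]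
        congr 1
        ring
      have h10 := exp_pos (-(2 * m * η))
      rw [cos_add, cos_sub]
      have h11 : exp (-(2 * m * η)) * (exp (4 * m * η) * (cosh η + (cos b * cos α - sin b * sin α)))
          = exp (-(2 * m * η)) * (cosh η + (cos b * cos α + sin b * sin α)) := by
        rw [← h9] at h8
        linear_combination 2 * h8
      exact mul_left_cancel₀ h10.ne' h11
    have h12 : ell η (b - α) = 4 * m * η + ell η (b + α) := by
      unfold ell
      rw [show 2 * cosh η + 2 * cos (b - α) = 2 * (cosh η + cos (b - α)) by ring,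
        show 2 * cosh η + 2 * cos (b + α) = 2 * (cosh η + cos (b + α)) by ring,
        ← hexp, show 2 * (exp (4 * m * η) * (cosh η + cos (b + α))) =
          exp (4 * m * η) * (2 * (cosh η + cos (b + α))) by ring,
        Real.log_mul (exp_pos _).ne' (by positivity), Real.log_exp]
    linarith
  · -- c2
    unfold ell
    rw [← Real.log_mul (by linarith) (by linarith), ← Real.log_rpow (by positivity)]
    congr 1
    have e4 : (2 * cosh η + 2 * cos (b + α)) * (2 * cosh η + 2 * cos (b - α)) =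
        4 * ((cosh η + cos (b + α)) * (cosh η + cos (b - α))) := by ring
    rw [e4, hprod, ← hsq]
    norm_num
    ring

lemma T_hasDeriv {η τ : ℝ} (h1 : -π < τ) (h2 : τ < π) :
    HasDerivAt (T η) (sinh η / (cosh η + cos τ)) τ := by
  have hc : 0 < cos (τ / 2) := cos_pos_of_mem_Ioo ⟨by linarith, by linarith⟩
  have hch := cosh_pos (η / 2)
  have hu : HasDerivAt (fun τ : ℝ => τ / 2) (1 / 2) τ := (hasDerivAt_id τ).div_const 2
  have hs : HasDerivAt (fun τ : ℝ => sin (τ / 2)) (cos (τ / 2) * (1 / 2)) τ := hu.sin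
  have hcs : HasDerivAt (fun τ : ℝ => cos (τ / 2)) (-sin (τ / 2) * (1 / 2)) τ := hu.cos
  have hq := (((hs.div hcs hc.ne').const_mul (th (η / 2))).arctan).const_mul 2
  refine hq.congr_deriv ?_
  have e1 : sinh η = 2 * sinh (η / 2) * cosh (η / 2) := by
    rw [← sinh_two_mul]
    ring_nf
  have e2 : cosh η = 2 * cosh (η / 2) ^ 2 - 1 := by
    have := cosh_two_mul (η / 2)
    rw [show 2 * (η / 2) = η by ring] at this
    have h3 := cosh_sq (η / 2)
    linarith
  have e3 : cos τ = 2 * cos (τ / 2) ^ 2 - 1 := by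
    rw [← cos_two_mul]
    ring_nf
  have h3 := cosh_sq (η / 2)
  have h4 := Real.sin_sq_add_cos_sq (τ / 2)
  have h5 : 0 < cosh (η / 2) ^ 2 + cos (τ / 2) ^ 2 - 1 := by
    have := sq_nonneg (sinh (η / 2))
    have := pow_pos hc 2
    linarith
  have h6 : 0 < cosh η + cos τ := by
    rw [e2, e3]
    linarith
  have h7 : 0 < 1 + (th (η / 2) * (sin (τ / 2) / cos (τ / 2))) ^ 2 := by positivity
  have hkey : (cosh (η / 2) ^ 2 * cos (τ / 2) ^ 2) *
      (1 + (th (η / 2) * (sin (τ / 2) / cos (τ / 2))) ^ 2) = (cosh η + cos τ) / 2 := by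
    unfold th
    rw [e2, e3]
    field_simp
    have : sin (τ / 2) ^ 2 = 1 - cos (τ / 2) ^ 2 := by linarith
    have : sinh (η / 2) ^ 2 = cosh (η / 2) ^ 2 - 1 := by linarith
    nlinarith
  have hden : 1 / (1 + (th (η / 2) * (sin (τ / 2) / cos (τ / 2))) ^ 2) =
      2 * (cosh (η / 2) ^ 2 * cos (τ / 2) ^ 2) / (cosh η + cos τ) := by
    rw [div_eq_div_iff h7.ne' h6.ne']
    linarith
  rw [Pi.div_apply, hden, e1]
  have h8 : cos (τ / 2) * (1 / 2) * cos (τ / 2) - sin (τ / 2) * (-sin (τ / 2) * (1 / 2)) = 1 / 2 := by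
    nlinarith
  rw [h8]
  unfold th
  field_simp

lemma T_cont_at {η τ : ℝ} (h1 : -π < τ) (h2 : τ < π) :
    ContinuousAt (fun p : ℝ × ℝ => T p.1 p.2) (η, τ) := by
  have hc : 0 < cos (τ / 2) := cos_pos_of_mem_Ioo ⟨by linarith, by linarith⟩
  unfold T
  have k1 : ContinuousAt (fun p : ℝ × ℝ => th (p.1 / 2)) (η, τ) :=
    (continuous_th.comp (continuous_fst.div_const 2)).continuousAt
  have k2 : ContinuousAt (fun p : ℝ × ℝ => sin (p.2 / 2)) (η, τ) :=
    (continuous_sin.comp (continuous_snd.div_const 2)).continuousAt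
  have k3 : ContinuousAt (fun p : ℝ × ℝ => cos (p.2 / 2)) (η, τ) :=
    (continuous_cos.comp (continuous_snd.div_const 2)).continuousAt
  exact continuousAt_const.mul (continuous_arctan.continuousAt.comp (k1.mul (k2.div k3 hc.ne')))

lemma int_T {η x y : ℝ} (h1 : -π < x) (h2 : x ≤ y) (h3 : y < π) (hη : 0 < η) :
    ∫ τ in x..y, sinh η / (cosh η + cos τ) = T η y - T η x := by
  apply intervalIntegral.integral_eq_sub_of_hasDerivAt
  · intro τ hτ
    rw [uIcc_of_le h2] at hτ
    exact T_hasDeriv (by linarith [hτ.1]) (by linarith [hτ.2])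
  · apply Continuous.intervalIntegrable
    apply continuous_const.div (continuous_const.add continuous_cos)
    intro τ
    have := one_lt_cosh.mpr hη.ne'
    have := neg_one_le_cos τ
    have : 0 < cosh η + cos τ := by linarith
    exact this.ne'

lemma T_abs (η τ : ℝ) : -π < T η τ ∧ T η τ < π := by
  unfold T
  constructor
  · linarith [neg_pi_div_two_lt_arctan (th (η / 2) * (sin (τ / 2) / cos (τ / 2)))]
  · linarith [arctan_lt_pi_div_two (th (η / 2) * (sin (τ / 2) / cos (τ / 2)))]

/-- **VC-CRIT** -/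
theorem crit : Pool.Agent.W709.VC.S_CRIT := by
  intro m hm
  have hmpos : 0 < m := by linarith
  set lo := π / (2 * m) with hlo
  set hi := π / m with hhi
  have hlo0 : 0 < lo := by positivity
  have hlohi : lo ≤ hi := by
    rw [hlo, hhi]
    apply div_le_div_of_nonneg_left pi_pos.le hmpos
    linarith
  have hhi2 : hi ≤ π / 2 := by
    rw [hhi]
    exact div_le_div_of_nonneg_left pi_pos.le (by norm_num) hm
  have hex : ∀ b : ℝ, ∃ η, b ∈ Icc lo hi → 0 < η ∧ η < e1 ∧ Ph m b η = 0 := by
    intro b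
    by_cases hb : b ∈ Icc lo hi
    · obtain ⟨η, h⟩ := exists_eta (b := b) hm (lt_of_lt_of_le hlo0 hb.1) (hb.2.trans hhi2)
      exact ⟨η, fun _ => h⟩
    · exact ⟨0, fun h => absurd h hb⟩
  choose e he using hex
  have hecont := e_cont hm hlo0 hhi2 e he
  have hb0 : ∀ b ∈ Icc lo hi, 0 < b := fun b hb => lt_of_lt_of_le hlo0 hb.1
  have hb2 : ∀ b ∈ Icc lo hi, b ≤ π / 2 := fun b hb => hb.2.trans hhi2
  have hch : ∀ b ∈ Icc lo hi, cosh (e b) < √2 := fun b hb =>
    cosh_lt_sqrt2 (he b hb).1 (he b hb).2.1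
  have hall := fun b hb => crit12 (m := m) (hb0 b hb) (hb2 b hb) (he b hb).1 (hch b hb)
    (he b hb).2.2
  have hcccont : ContinuousOn (fun b => cc b (e b)) (Icc lo hi) := by
    unfold cc
    apply ContinuousOn.div
    · exact (continuousOn_const.sub ((continuous_cosh.comp_continuousOn hecont).pow 2)).sub
        (continuous_cos.continuousOn.pow 2)
    · exact continuousOn_const.mul (continuousOn_const.add
        ((continuous_cosh.comp_continuousOn hecont).mul continuous_cos.continuousOn))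
    · intro b hb
      have hc : 0 ≤ cos b := cos_nonneg_of_mem_Icc
        ⟨by linarith [pi_pos, hb0 b hb], hb2 b hb⟩
      have : 0 < 2 * (1 + cosh (e b) * cos b) := by
        have := mul_nonneg (cosh_pos (e b)).le hc
        linarith
      exact this.ne'
  have hαcont : ContinuousOn (fun b => arccos (cc b (e b))) (Icc lo hi) :=
    continuous_arccos.comp_continuousOn hcccont
  let H : ℝ → ℝ := fun b => 4 * (m * b - π) + (T (e b) (b + arccos (cc b (e b))) -
    T (e b) (b - arccos (cc b (e b))))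
  have hrange : ∀ b ∈ Icc lo hi, -π < b - arccos (cc b (e b)) ∧
      b - arccos (cc b (e b)) < π ∧ -π < b + arccos (cc b (e b)) ∧
      b + arccos (cc b (e b)) < π := by
    intro b hb
    obtain ⟨h1, h2, -, -⟩ := hall b hb
    have := hb0 b hb
    refine ⟨by linarith, by linarith, by linarith [pi_pos], by linarith⟩
  have hHcont : ContinuousOn H (Icc lo hi) := by
    apply ContinuousOn.add
    · exact (continuous_const.mul ((continuous_const.mul continuous_id).sub
        continuous_const)).continuousOn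
    · apply ContinuousOn.sub
      · intro b hb
        have h1 := T_cont_at (η := e b) (hrange b hb).2.2.1 (hrange b hb).2.2.2
        exact ContinuousAt.comp_continuousWithinAt (f := fun b => (e b, b + arccos (cc b (e b))))
          h1 ((hecont b hb).prodMk (continuousWithinAt_id.add (hαcont b hb)))
      · intro b hb
        have h1 := T_cont_at (η := e b) (hrange b hb).1 (hrange b hb).2.1
        exact ContinuousAt.comp_continuousWithinAt (f := fun b => (e b, b - arccos (cc b (e b))))
          h1 ((hecont b hb).prodMk (continuousWithinAt_id.sub (hαcont b hb)))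
  have hlo' : lo ∈ Icc lo hi := ⟨le_rfl, hlohi⟩
  have hhi' : hi ∈ Icc lo hi := ⟨hlohi, le_rfl⟩
  have hHlo : H lo < 0 := by
    have e5 : m * lo = π / 2 := by
      rw [hlo]
      field_simp
    have h1 := (T_abs (e lo) (lo + arccos (cc lo (e lo)))).2
    have h2 := (T_abs (e lo) (lo - arccos (cc lo (e lo)))).1
    change 4 * (m * lo - π) + (T (e lo) (lo + arccos (cc lo (e lo))) -
      T (e lo) (lo - arccos (cc lo (e lo)))) < 0
    rw [e5]
    linarith
  have hint : ∀ b ∈ Icc lo hi, ∫ τ in (b - arccos (cc b (e b)))..(b + arccos (cc b (e b))),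
      sinh (e b) / (cosh (e b) + cos τ) = T (e b) (b + arccos (cc b (e b))) -
        T (e b) (b - arccos (cc b (e b))) := by
    intro b hb
    have h1 := (hall b hb).1
    exact int_T (hrange b hb).1 (by linarith) (hrange b hb).2.2.2 (he b hb).1
  have hHhi : 0 < H hi := by
    have e5 : m * hi = π := by
      rw [hhi]
      field_simp
    change 0 < 4 * (m * hi - π) + (T (e hi) (hi + arccos (cc hi (e hi))) -
      T (e hi) (hi - arccos (cc hi (e hi))))
    rw [e5, ← hint hi hhi']
    have h1 := (hall hi hhi').1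
    have h2 : 0 < ∫ τ in (hi - arccos (cc hi (e hi)))..(hi + arccos (cc hi (e hi))),
      sinh (e hi) / (cosh (e hi) + cos τ) := by
      have hpos : ∀ τ : ℝ, 0 < cosh (e hi) + cos τ := by
        intro τ
        have := one_lt_cosh.mpr (he hi hhi').1.ne'
        have := neg_one_le_cos τ
        linarith
      apply intervalIntegral.intervalIntegral_pos_of_pos
      · apply Continuous.intervalIntegrable
        exact continuous_const.div (continuous_const.add continuous_cos) fun τ => (hpos τ).ne'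
      · intro τ
        exact div_pos (sinh_pos_iff.mpr (he hi hhi').1) (hpos τ)
      · linarith
    linarith
  obtain ⟨b, ⟨hb1, hb2'⟩, hb3⟩ := intermediate_value_Ioo hlohi hHcont ⟨hHlo, hHhi⟩
  have hbI : b ∈ Icc lo hi := ⟨hb1.le, hb2'.le⟩
  obtain ⟨h1, h2, h3, h4⟩ := hall b hbI
  refine ⟨arccos (cc b (e b)), b, e b, ?_⟩
  refine ⟨h1, hb0 b hbI, (he b hbI).1, ?_, h2, h3, h4, ?_⟩
  · rw [hhi, lt_div_iff₀ hmpos] at hb2'
    linarith
  · rw [hint b hbI]
    exact hb3

end Pool.Agent.W704.VC.Crit
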